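import Pool.Agent.Q128.Mirror.Main

/-!
# Mirror codes of nonabelian groups which are not dominated (MP_91138c_lc)

For every finite nonabelian group `G` with a subgroup `H` of index two the triple `(G, H, G)` is a
valid symmetric and asymmetric mirror code with parameters `[[n, n - 2, 2]]`, `n = |G|`, and these
parameters are dominated by those of no abelian mirror code; they are not even dominated by the
parameters of any stabilizer code.

The definitions (`Pauli`, `ind`, `symp`, `weight`, `symCheck`, `asymCheck`, `Valid`, `code`,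
`dimK`, `dist`, `Dominates`) are in `Pool/Agent/Q128/Mirror/Defs.lean`.
-/

namespace Pool.Agent.Results.MP_91138c_lc.NotDominated

open Pool.Agent.Q128.Mirror

/-- (1) Let `G` be a finite nonabelian group and `H` a subgroup of index two. The symmetric and the
asymmetric mirror checks of `(G, H, G)` commute, the codes have the parameters `[[n, n - 2, 2]]`,
and they are dominated neither by a mirror code of an abelian group nor by any other family of
Pauli operators on any number of qubits.
(2) There are such groups, for instance the symmetric group on three letters (the parameters are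
`[[6, 4, 2]]`). -/
theorem result :
    (∀ (G : Type) [Group G] [Fintype G] (H : Subgroup G), H.index = 2 →
      (∃ a b : G, a * b ≠ b * a) →
      (Valid (symCheck (H : Set G) Set.univ) ∧
        dimK (symCheck (H : Set G) Set.univ) = Fintype.card G - 2 ∧
        dist (symCheck (H : Set G) Set.univ) = 2) ∧
      (Valid (asymCheck (H : Set G) Set.univ) ∧
        dimK (asymCheck (H : Set G) Set.univ) = Fintype.card G - 2 ∧
        dist (asymCheck (H : Set G) Set.univ) = 2) ∧
      (∀ (G' : Type) [CommGroup G'] [Fintype G'] (A' B' : Set G'),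
        ¬ Dominates (symCheck A' B') (symCheck (H : Set G) Set.univ) ∧
        ¬ Dominates (symCheck A' B') (asymCheck (H : Set G) Set.univ)) ∧
      (∀ (Q : Type) [Fintype Q] [Nonempty Q] (S : Q → Pauli Q),
        ¬ Dominates S (symCheck (H : Set G) Set.univ) ∧
        ¬ Dominates S (asymCheck (H : Set G) Set.univ))) ∧
    (∃ H : Subgroup (Equiv.Perm (Fin 3)), H.index = 2 ∧
      (∃ a b : Equiv.Perm (Fin 3), a * b ≠ b * a) ∧
      Valid (symCheck (H : Set (Equiv.Perm (Fin 3))) Set.univ) ∧
      dimK (symCheck (H : Set (Equiv.Perm (Fin 3))) Set.univ) = 4 ∧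
      dist (symCheck (H : Set (Equiv.Perm (Fin 3))) Set.univ) = 2 ∧
      ∀ (G' : Type) [CommGroup G'] [Fintype G'] (A' B' : Set G'),
        ¬ Dominates (symCheck A' B') (symCheck (H : Set (Equiv.Perm (Fin 3))) Set.univ)) := by
  have main : ∀ (G : Type) [Group G] [Fintype G] (H : Subgroup G), H.index = 2 →
      (∃ a b : G, a * b ≠ b * a) →
      (Valid (symCheck (H : Set G) Set.univ) ∧
        dimK (symCheck (H : Set G) Set.univ) = Fintype.card G - 2 ∧
        dist (symCheck (H : Set G) Set.univ) = 2) ∧
      (Valid (asymCheck (H : Set G) Set.univ) ∧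
        dimK (asymCheck (H : Set G) Set.univ) = Fintype.card G - 2 ∧
        dist (asymCheck (H : Set G) Set.univ) = 2) ∧
      (∀ (G' : Type) [CommGroup G'] [Fintype G'] (A' B' : Set G'),
        ¬ Dominates (symCheck A' B') (symCheck (H : Set G) Set.univ) ∧
        ¬ Dominates (symCheck A' B') (asymCheck (H : Set G) Set.univ)) ∧
      (∀ (Q : Type) [Fintype Q] [Nonempty Q] (S : Q → Pauli Q),
        ¬ Dominates S (symCheck (H : Set G) Set.univ) ∧
        ¬ Dominates S (asymCheck (H : Set G) Set.univ)) := by
    intro G _ _ H hH hab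
    have hn := four_le_card hab
    have heq : (asymCheck (H : Set G) Set.univ) = symCheck (H : Set G) Set.univ :=
      funext fun g => asym_eq H g
    have hk : dimK (symCheck (H : Set G) Set.univ) = Fintype.card G - 2 := by
      unfold dimK
      rw [finrank_code H hH]
    have hd := dist_code H hH (by omega)
    have hno : ∀ (Q : Type) [Fintype Q] [Nonempty Q] (S : Q → Pauli Q),
        ¬ Dominates S (symCheck (H : Set G) Set.univ) := fun Q _ _ S =>
      not_dominates S _ hn hk hd
    rw [heq]
    exact ⟨⟨valid_sym H hH, hk, hd⟩, ⟨valid_sym H hH, hk, hd⟩,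
      fun G' _ _ A' B' => ⟨hno _ _, hno _ _⟩, fun Q _ _ S => ⟨hno _ _, hno _ _⟩⟩
  refine ⟨main, alternatingGroup (Fin 3), alternatingGroup.index_eq_two, ?_, ?_⟩
  · exact ⟨Equiv.swap 0 1, Equiv.swap 1 2, by decide⟩
  · have h := main (Equiv.Perm (Fin 3)) (alternatingGroup (Fin 3)) alternatingGroup.index_eq_two
      ⟨Equiv.swap 0 1, Equiv.swap 1 2, by decide⟩
    refine ⟨h.1.1, ?_, h.1.2.2, fun G' _ _ A' B' => (h.2.2.1 G' A' B').1⟩
    rw [h.1.2.1, Fintype.card_perm, Fintype.card_fin]
    rfl

end Pool.Agent.Results.MP_91138c_lc.NotDominated
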